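import Mathlib

/-!
For `n ≥ 1` the number `8 (2 n - 1) binom(3 n, n)` divides the `n`-th term of the
self-convolution of `a k = binom(6 k, 3 k) binom(3 k, k)`.  We show by Legendre's formula that
`4 (2 n - 1) binom(3 n, n)` divides each product `a j * a k` with `j + k = n`, with `8` in place
of `4` if `j = k`, and then pair the terms `(j, k)` and `(k, j)`.
-/

set_option autoImplicit false

open Finset
open scoped Nat

namespace Pool.Agent.Results.MP_cbedb1_nt.SelfConvolution

lemma auxA (J : ℕ) : J / 2 + J / 3 + J / 6 ≤ J := by omega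

lemma auxB (J : ℕ) (h : J % 6 ≠ 0) : J / 2 + J / 3 + J / 6 + 1 ≤ J := by omega

lemma auxC (N : ℕ) : N / 2 ≤ N / 3 + N / 6 + 1 := by omega

lemma auxD (N : ℕ) (h : N % 6 ≤ 1 ∨ N % 6 = 3) : N / 2 ≤ N / 3 + N / 6 := by omega

/-- The inequality between step functions, without the factor `2 n - 1`. -/
lemma aux1 {J K N : ℕ} (h : N = J + K ∨ N = J + K + 1) :
    N / 2 + (J / 2 + J / 3 + J / 6) + (K / 2 + K / 3 + K / 6) ≤ J + K + N / 6 + N / 3 := by
  have a := auxA J
  have b := auxA K
  by_cases hN : N % 6 ≤ 1
  · have c := auxD N (Or.inl hN)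
    omega
  · have c := auxC N
    by_cases hJ : J % 6 = 0
    · have hK : K % 6 ≠ 0 := by omega
      have d := auxB K hK
      omega
    · have d := auxB J hJ
      omega

/-- The inequality between step functions, with the factor `2 n - 1`. -/
lemma aux2 {J K N : ℕ} (h : N = J + K ∨ N = J + K + 1) (h3 : N % 6 = 3) :
    1 + N / 2 + (J / 2 + J / 3 + J / 6) + (K / 2 + K / 3 + K / 6)
      ≤ J + K + N / 6 + N / 3 := by
  have a := auxA J
  have b := auxA K
  have c := auxD N (Or.inr h3)
  by_cases hJ : J % 6 = 0
  · have hK : K % 6 ≠ 0 := by omega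
    have d := auxB K hK
    omega
  · have d := auxB J hJ
    omega

/-- The inequality at a prime power `q ≥ 4`. -/
lemma level {q j k : ℕ} (hq : 4 ≤ q) (hn : 1 ≤ j + k) :
    (if q ∣ 2 * (j + k) - 1 then 1 else 0) + 3 * (j + k) / q
      + (3 * j / q + 2 * j / q + j / q) + (3 * k / q + 2 * k / q + k / q)
      ≤ 6 * j / q + 6 * k / q + (j + k) / q + 2 * (j + k) / q := by
  have hq0 : 0 < q := by omega
  have h3 : ∀ x : ℕ, 3 * x / q = 6 * x / q / 2 := by
    intro x
    rw [Nat.div_div_eq_div_mul, show 6 * x = 3 * x * 2 by ring, Nat.mul_div_mul_right _ _ (by norm_num)]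
  have h2 : ∀ x : ℕ, 2 * x / q = 6 * x / q / 3 := by
    intro x
    rw [Nat.div_div_eq_div_mul, show 6 * x = 2 * x * 3 by ring, Nat.mul_div_mul_right _ _ (by norm_num)]
  have h1 : ∀ x : ℕ, x / q = 6 * x / q / 6 := by
    intro x
    rw [Nat.div_div_eq_div_mul, mul_comm 6 x, Nat.mul_div_mul_right _ _ (by norm_num)]
  rw [h3 (j + k), h3 j, h3 k, h2 j, h2 k, h2 (j + k), h1 j, h1 k, h1 (j + k)]
  have hsum : 6 * (j + k) / q = 6 * j / q + 6 * k / q
      ∨ 6 * (j + k) / q = 6 * j / q + 6 * k / q + 1 := by
    rw [mul_add, Nat.add_div hq0]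
    split_ifs
    · right; rfl
    · left; rfl
  by_cases hd : q ∣ 2 * (j + k) - 1
  · rw [if_pos hd]
    obtain ⟨m, hm⟩ := hd
    have hmodd : m % 2 = 1 := by
      rcases Nat.even_or_odd m with ⟨t, ht⟩ | ⟨t, ht⟩
      · exfalso
        rw [ht] at hm
        have : q * (t + t) = 2 * (q * t) := by ring
        omega
      · omega
    have hN : 6 * (j + k) / q = 3 * m := by
      have e : 6 * (j + k) = 3 + q * (3 * m) := by
        have : q * (3 * m) = 3 * (q * m) := by ring
        omega
      rw [e, Nat.add_mul_div_left _ _ hq0, Nat.div_eq_of_lt (by omega)]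
      omega
    have h36 : 6 * (j + k) / q % 6 = 3 := by omega
    exact aux2 hsum h36
  · rw [if_neg hd, zero_add]
    exact aux1 hsum

/-- The inequality at a prime power in the case of the prime `3`. -/
lemma level_three {q j k : ℕ} (hq : 2 ≤ q) (hn : 1 ≤ j + k) :
    (if q ∣ 2 * (j + k) - 1 then 1 else 0) + 2 * (j / q) + 2 * (k / q)
      ≤ 2 * (j + k) / q := by
  have hq0 : 0 < q := by omega
  have e1 : j / q + k / q ≤ (j + k) / q := Nat.div_add_div_le_add_div
  have e2 : (j + k) / q + (j + k) / q ≤ 2 * (j + k) / q := by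
    rw [two_mul]
    exact Nat.div_add_div_le_add_div
  by_cases hd : q ∣ 2 * (j + k) - 1
  · rw [if_pos hd]
    obtain ⟨m, hm⟩ := hd
    have hmodd : m % 2 = 1 := by
      rcases Nat.even_or_odd m with ⟨t, ht⟩ | ⟨t, ht⟩
      · exfalso
        rw [ht] at hm
        have : q * (t + t) = 2 * (q * t) := by ring
        omega
      · omega
    have hN : 2 * (j + k) / q = m := by
      have e : 2 * (j + k) = 1 + q * m := by omega
      rw [e, Nat.add_mul_div_left _ _ hq0, Nat.div_eq_of_lt (by omega)]
      omega
    omega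
  · rw [if_neg hd]
    omega

/-- The exponent of `p` in `n!` for `p ∣ n`. -/
lemma fact_mul {p : ℕ} (hp : p.Prime) (m : ℕ) :
    (p * m)!.factorization p = m + (m)!.factorization p := by
  have : Fact p.Prime := ⟨hp⟩
  rw [Nat.factorization_def _ hp, Nat.factorization_def _ hp, padicValNat_factorial_mul]
  ring

/-- The exponent of `p` in the odd number `2 n - 1`. -/
lemma fact_odd {p : ℕ} (hp : p.Prime) {N b : ℕ} (hN : 0 < N) (hb : Nat.log p N < b) :
    N.factorization p = ∑ i ∈ Ico 1 b, if p ^ i ∣ N then 1 else 0 := by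
  rw [Nat.factorization_eq_card_pow_dvd_of_lt hp hN (Nat.lt_pow_of_log_lt hp.one_lt hb)]
  simp

/-- Exponents of a prime `p ≥ 5`. -/
lemma val_ge_five {p : ℕ} (hp : p.Prime) (h5 : 4 ≤ p) {j k : ℕ} (hn : 1 ≤ j + k) :
    (2 * (j + k) - 1).factorization p + (3 * (j + k))!.factorization p
      + ((3 * j)!.factorization p + (2 * j)!.factorization p + (j)!.factorization p)
      + ((3 * k)!.factorization p + (2 * k)!.factorization p + (k)!.factorization p)
      ≤ (6 * j)!.factorization p + (6 * k)!.factorization p + (j + k)!.factorization p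
        + (2 * (j + k))!.factorization p := by
  obtain ⟨b, hb⟩ : ∃ b, b = Nat.log p (6 * (j + k)) + 1 := ⟨_, rfl⟩
  have hlog : ∀ x, x ≤ 6 * (j + k) → Nat.log p x < b := by
    intro x hx
    rw [hb]
    exact Nat.lt_succ_of_le (Nat.log_mono_right hx)
  rw [fact_odd hp (N := 2 * (j + k) - 1) (b := b) (by omega) (hlog _ (by omega)),
    Nat.factorization_factorial hp (hlog (3 * (j + k)) (by omega)),
    Nat.factorization_factorial hp (hlog (3 * j) (by omega)),
    Nat.factorization_factorial hp (hlog (2 * j) (by omega)),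
    Nat.factorization_factorial hp (hlog j (by omega)),
    Nat.factorization_factorial hp (hlog (3 * k) (by omega)),
    Nat.factorization_factorial hp (hlog (2 * k) (by omega)),
    Nat.factorization_factorial hp (hlog k (by omega)),
    Nat.factorization_factorial hp (hlog (6 * j) (by omega)),
    Nat.factorization_factorial hp (hlog (6 * k) (by omega)),
    Nat.factorization_factorial hp (hlog (j + k) (by omega)),
    Nat.factorization_factorial hp (hlog (2 * (j + k)) (by omega))]
  simp only [← Finset.sum_add_distrib]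
  refine Finset.sum_le_sum ?_
  intro i hi
  have hi1 : 1 ≤ i := (Finset.mem_Ico.1 hi).1
  refine level ?_ hn
  calc 4 ≤ p := h5
    _ = p ^ 1 := (pow_one p).symm
    _ ≤ p ^ i := Nat.pow_le_pow_right hp.pos hi1

/-- Exponents of the prime `3`. -/
lemma val_three {j k : ℕ} (hn : 1 ≤ j + k) :
    (2 * (j + k) - 1).factorization 3 + (3 * (j + k))!.factorization 3
      + ((3 * j)!.factorization 3 + (2 * j)!.factorization 3 + (j)!.factorization 3)
      + ((3 * k)!.factorization 3 + (2 * k)!.factorization 3 + (k)!.factorization 3)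
      ≤ (6 * j)!.factorization 3 + (6 * k)!.factorization 3 + (j + k)!.factorization 3
        + (2 * (j + k))!.factorization 3 := by
  have hp : Nat.Prime 3 := Nat.prime_three
  have key : (2 * (j + k) - 1).factorization 3 + 2 * (j)!.factorization 3
      + 2 * (k)!.factorization 3 ≤ (2 * (j + k))!.factorization 3 := by
    obtain ⟨b, hb⟩ : ∃ b, b = Nat.log 3 (6 * (j + k)) + 1 := ⟨_, rfl⟩
    have hlog : ∀ x, x ≤ 6 * (j + k) → Nat.log 3 x < b := by
      intro x hx
      rw [hb]
      exact Nat.lt_succ_of_le (Nat.log_mono_right hx)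
    rw [fact_odd hp (N := 2 * (j + k) - 1) (b := b) (by omega) (hlog _ (by omega)),
      Nat.factorization_factorial hp (hlog j (by omega)),
      Nat.factorization_factorial hp (hlog k (by omega)),
      Nat.factorization_factorial hp (hlog (2 * (j + k)) (by omega))]
    rw [Finset.mul_sum, Finset.mul_sum]
    simp only [← Finset.sum_add_distrib]
    refine Finset.sum_le_sum ?_
    intro i hi
    have hi1 : 1 ≤ i := (Finset.mem_Ico.1 hi).1
    refine level_three ?_ hn
    calc 2 ≤ 3 ^ 1 := by norm_num
      _ ≤ 3 ^ i := Nat.pow_le_pow_right hp.pos hi1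
  have a1 := fact_mul hp (j + k)
  have a2 := fact_mul hp j
  have a3 := fact_mul hp k
  have a4 : (6 * j)!.factorization 3 = 2 * j + (2 * j)!.factorization 3 := by
    rw [← fact_mul hp (2 * j), show 3 * (2 * j) = 6 * j by ring]
  have a5 : (6 * k)!.factorization 3 = 2 * k + (2 * k)!.factorization 3 := by
    rw [← fact_mul hp (2 * k), show 3 * (2 * k) = 6 * k by ring]
  omega

/-- The exponent of `2` in `n!` is less than `n` for `n ≥ 1`. -/
lemma two_lt {n : ℕ} (hn : 1 ≤ n) : (n)!.factorization 2 + 1 ≤ n := by
  have : Fact (Nat.Prime 2) := ⟨Nat.prime_two⟩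
  rw [Nat.factorization_def _ Nat.prime_two]
  exact padicValNat_factorial_lt_of_ne_zero 2 (by omega)

/-- The exponent of `2` in `(3 n)!` is at most `3 n - 2` for `n ≥ 1`. -/
lemma two_three (n : ℕ) (hn : 1 ≤ n) : (3 * n)!.factorization 2 + 2 ≤ 3 * n := by
  induction n using Nat.strong_induction_on with
  | _ n ih =>
    rcases Nat.even_or_odd n with ⟨m, hm⟩ | ⟨m, hm⟩
    · have h1 := ih m (by omega) (by omega)
      have h2 := fact_mul Nat.prime_two (3 * m)
      have h3 : 3 * n = 2 * (3 * m) := by omega
      rw [h3]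
      omega
    · have h3 : 3 * n = 2 * (3 * m + 1) + 1 := by omega
      have h4 : (3 * n)!.factorization 2 = (2 * (3 * m + 1))!.factorization 2 := by
        rw [h3]
        have : Fact (Nat.Prime 2) := ⟨Nat.prime_two⟩
        rw [Nat.factorization_def _ Nat.prime_two, Nat.factorization_def _ Nat.prime_two]
        exact padicValNat_factorial_mul_add (3 * m + 1) (by norm_num)
      have h2 := fact_mul Nat.prime_two (3 * m + 1)
      have h5 := two_lt (n := 3 * m + 1) (by omega)
      omega

/-- Exponents of the prime `2`. -/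
lemma val_two {j k : ℕ} (hn : 1 ≤ j + k) :
    2 + (3 * (j + k))!.factorization 2
      + ((3 * j)!.factorization 2 + (2 * j)!.factorization 2 + (j)!.factorization 2)
      + ((3 * k)!.factorization 2 + (2 * k)!.factorization 2 + (k)!.factorization 2)
      ≤ (6 * j)!.factorization 2 + (6 * k)!.factorization 2 + (j + k)!.factorization 2
        + (2 * (j + k))!.factorization 2 := by
  have hp := Nat.prime_two
  have a1 := fact_mul hp (j + k)
  have a2 := fact_mul hp j
  have a3 := fact_mul hp k
  have a4 : (6 * j)!.factorization 2 = 3 * j + (3 * j)!.factorization 2 := by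
    rw [← fact_mul hp (3 * j), show 2 * (3 * j) = 6 * j by ring]
  have a5 : (6 * k)!.factorization 2 = 3 * k + (3 * k)!.factorization 2 := by
    rw [← fact_mul hp (3 * k), show 2 * (3 * k) = 6 * k by ring]
  have a6 := two_three (j + k) hn
  have a7 : (j)!.factorization 2 + (k)!.factorization 2 ≤ (j + k)!.factorization 2 := by
    have h1 : (j)! * (k)! ∣ (j + k)! := Nat.factorial_mul_factorial_dvd_factorial_add j k
    have h2 := (Nat.factorization_le_iff_dvd
      (mul_ne_zero (Nat.factorial_ne_zero j) (Nat.factorial_ne_zero k))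
      (Nat.factorial_ne_zero (j + k))).2 h1
    have h3 := h2 2
    rw [Nat.factorization_mul (Nat.factorial_ne_zero j) (Nat.factorial_ne_zero k)] at h3
    simpa using h3
  omega

/-- Exponents of the prime `2` for the middle term. -/
lemma val_two_middle {j : ℕ} (hn : 1 ≤ j) :
    3 + (3 * (j + j))!.factorization 2
      + ((3 * j)!.factorization 2 + (2 * j)!.factorization 2 + (j)!.factorization 2)
      + ((3 * j)!.factorization 2 + (2 * j)!.factorization 2 + (j)!.factorization 2)
      ≤ (6 * j)!.factorization 2 + (6 * j)!.factorization 2 + (j + j)!.factorization 2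
        + (2 * (j + j))!.factorization 2 := by
  have hp := Nat.prime_two
  have a1 := fact_mul hp (j + j)
  have a2 := fact_mul hp j
  have a4 : (6 * j)!.factorization 2 = 3 * j + (3 * j)!.factorization 2 := by
    rw [← fact_mul hp (3 * j), show 2 * (3 * j) = 6 * j by ring]
  have a5 : (3 * (j + j))!.factorization 2 = 3 * j + (3 * j)!.factorization 2 := by
    rw [← fact_mul hp (3 * j), show 2 * (3 * j) = 3 * (j + j) by ring]
  have a6 := two_three j hn
  have a7 := two_lt hn
  have a8 : (j + j)!.factorization 2 = (2 * j)!.factorization 2 := by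
    rw [two_mul]
  omega

/-- `a k` times its denominator. -/
lemma a_mul (k : ℕ) :
    (6 * k).choose (3 * k) * (3 * k).choose k * ((3 * k)! * (2 * k)! * (k)!) = (6 * k)! := by
  have h1 := Nat.choose_mul_factorial_mul_factorial (n := 6 * k) (k := 3 * k) (by omega)
  have h2 := Nat.choose_mul_factorial_mul_factorial (n := 3 * k) (k := k) (by omega)
  rw [show 6 * k - 3 * k = 3 * k by omega] at h1
  rw [show 3 * k - k = 2 * k by omega] at h2
  calc (6 * k).choose (3 * k) * (3 * k).choose k * ((3 * k)! * (2 * k)! * (k)!)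
      = (6 * k).choose (3 * k) * (3 * k)! * ((3 * k).choose k * (k)! * (2 * k)!) := by ring
    _ = (6 * k)! := by rw [h2, h1]

lemma fact_four_self : (4 : ℕ).factorization 2 = 2 := by
  rw [show (4 : ℕ) = 2 ^ 2 by norm_num, Nat.Prime.factorization_pow Nat.prime_two]
  simp

lemma fact_eight_self : (8 : ℕ).factorization 2 = 3 := by
  rw [show (8 : ℕ) = 2 ^ 3 by norm_num, Nat.Prime.factorization_pow Nat.prime_two]
  simp

lemma fact_four_ne {p : ℕ} (hp : p ≠ 2) : (4 : ℕ).factorization p = 0 := by
  rw [show (4 : ℕ) = 2 ^ 2 by norm_num, Nat.Prime.factorization_pow Nat.prime_two]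
  simp [hp]

lemma fact_eight_ne {p : ℕ} (hp : p ≠ 2) : (8 : ℕ).factorization p = 0 := by
  rw [show (8 : ℕ) = 2 ^ 3 by norm_num, Nat.Prime.factorization_pow Nat.prime_two]
  simp [hp]

/-- The divisibility of a single product, with a general factor `e`. -/
lemma single {e j k : ℕ} (he : e ≠ 0) (hn : 1 ≤ j + k)
    (h2 : e.factorization 2 + (3 * (j + k))!.factorization 2
      + ((3 * j)!.factorization 2 + (2 * j)!.factorization 2 + (j)!.factorization 2)
      + ((3 * k)!.factorization 2 + (2 * k)!.factorization 2 + (k)!.factorization 2)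
      ≤ (6 * j)!.factorization 2 + (6 * k)!.factorization 2 + (j + k)!.factorization 2
        + (2 * (j + k))!.factorization 2)
    (hodd : ∀ p, p ≠ 2 → e.factorization p = 0) :
    e * (2 * (j + k) - 1) * (3 * (j + k)).choose (j + k) ∣
      ((6 * j).choose (3 * j) * (3 * j).choose j) *
        ((6 * k).choose (3 * k) * (3 * k).choose k) := by
  have hX : 0 < ((3 * j)! * (2 * j)! * (j)!) * ((3 * k)! * (2 * k)! * (k)!)
      * ((j + k)! * (2 * (j + k))!) := by positivity
  refine Nat.dvd_of_mul_dvd_mul_right hX ?_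
  have hN : 2 * (j + k) - 1 ≠ 0 := by omega
  have f : ∀ m : ℕ, (m)! ≠ 0 := Nat.factorial_ne_zero
  have c := Nat.choose_mul_factorial_mul_factorial (n := 3 * (j + k)) (k := j + k) (by omega)
  rw [show 3 * (j + k) - (j + k) = 2 * (j + k) by omega] at c
  have e1 : e * (2 * (j + k) - 1) * (3 * (j + k)).choose (j + k) *
      (((3 * j)! * (2 * j)! * (j)!) * ((3 * k)! * (2 * k)! * (k)!) * ((j + k)! * (2 * (j + k))!))
      = e * (2 * (j + k) - 1) * (3 * (j + k))! *
        (((3 * j)! * (2 * j)! * (j)!) * ((3 * k)! * (2 * k)! * (k)!)) := by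
    rw [← c]
    ring
  have e2 : ((6 * j).choose (3 * j) * (3 * j).choose j) *
        ((6 * k).choose (3 * k) * (3 * k).choose k) *
      (((3 * j)! * (2 * j)! * (j)!) * ((3 * k)! * (2 * k)! * (k)!) * ((j + k)! * (2 * (j + k))!))
      = (6 * j)! * (6 * k)! * ((j + k)! * (2 * (j + k))!) := by
    rw [← a_mul j, ← a_mul k]
    ring
  rw [e1, e2]
  rw [← Nat.factorization_prime_le_iff_dvd (by
      simp only [ne_eq, mul_eq_zero, f, he, hN, or_self, not_false_eq_true]) (by
      simp only [ne_eq, mul_eq_zero, f, or_self, not_false_eq_true])]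
  intro p hp
  have m1 : (e * (2 * (j + k) - 1) * (3 * (j + k))! *
        (((3 * j)! * (2 * j)! * (j)!) * ((3 * k)! * (2 * k)! * (k)!))).factorization p
      = e.factorization p + (2 * (j + k) - 1).factorization p + (3 * (j + k))!.factorization p
      + (((3 * j)!.factorization p + (2 * j)!.factorization p + (j)!.factorization p)
      + ((3 * k)!.factorization p + (2 * k)!.factorization p + (k)!.factorization p)) := by
    rw [Nat.factorization_mul, Nat.factorization_mul, Nat.factorization_mul,
      Nat.factorization_mul, Nat.factorization_mul, Nat.factorization_mul,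
      Nat.factorization_mul, Nat.factorization_mul]
    · simp only [Finsupp.coe_add, Pi.add_apply]
    all_goals simp only [ne_eq, mul_eq_zero, f, he, hN, or_self, not_false_eq_true]
  have m2 : ((6 * j)! * (6 * k)! * ((j + k)! * (2 * (j + k))!)).factorization p
      = (6 * j)!.factorization p + (6 * k)!.factorization p
        + ((j + k)!.factorization p + (2 * (j + k))!.factorization p) := by
    rw [Nat.factorization_mul, Nat.factorization_mul, Nat.factorization_mul]
    · simp only [Finsupp.coe_add, Pi.add_apply]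
    all_goals simp only [ne_eq, mul_eq_zero, f, or_self, not_false_eq_true]
  rw [m1, m2]
  by_cases hp2 : p = 2
  · subst hp2
    have h0 : (2 * (j + k) - 1).factorization 2 = 0 :=
      Nat.factorization_eq_zero_of_not_dvd (by omega)
    omega
  · have he0 := hodd p hp2
    by_cases hp3 : p = 3
    · subst hp3
      have := val_three hn
      omega
    · have hp4 : 4 ≤ p := by
        have := hp.two_le
        omega
      have := val_ge_five hp hp4 hn
      omega

lemma single_four {j k : ℕ} (hn : 1 ≤ j + k) :
    4 * (2 * (j + k) - 1) * (3 * (j + k)).choose (j + k) ∣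
      ((6 * j).choose (3 * j) * (3 * j).choose j) *
        ((6 * k).choose (3 * k) * (3 * k).choose k) := by
  refine single (by norm_num) hn ?_ ?_
  · rw [fact_four_self]
    exact val_two hn
  · intro p hp
    exact fact_four_ne hp

lemma single_eight {j : ℕ} (hn : 1 ≤ j) :
    8 * (2 * (j + j) - 1) * (3 * (j + j)).choose (j + j) ∣
      ((6 * j).choose (3 * j) * (3 * j).choose j) *
        ((6 * j).choose (3 * j) * (3 * j).choose j) := by
  refine single (by norm_num) (by omega) ?_ ?_
  · rw [fact_eight_self]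
    exact val_two_middle hn
  · intro p hp
    exact fact_eight_ne hp

/-- For every `n ≥ 1`, the number `8 (2 n - 1) binom(3 n, n)` divides
`∑ j ∈ {0, …, n}, a j * a (n - j)` with `a k = binom(6 k, 3 k) * binom(3 k, k)`. -/
theorem result (n : ℕ) (hn : 1 ≤ n) :
    8 * (2 * n - 1) * (3 * n).choose n ∣
      ∑ j ∈ Finset.range (n + 1),
        ((6 * j).choose (3 * j) * (3 * j).choose j) *
          ((6 * (n - j)).choose (3 * (n - j)) * (3 * (n - j)).choose (n - j)) := by
  obtain ⟨D, hD⟩ : ∃ D, D = 4 * (2 * n - 1) * (3 * n).choose n := ⟨_, rfl⟩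
  have hD0 : 0 < D := by
    rw [hD]
    have : 0 < (3 * n).choose n := Nat.choose_pos (by omega)
    have : 0 < 2 * n - 1 := by omega
    positivity
  have hD2 : 8 * (2 * n - 1) * (3 * n).choose n = 2 * D := by
    rw [hD]
    ring
  rw [hD2]
  -- each term is `D` times some `c j`
  have hterm : ∀ j ∈ Finset.range (n + 1), D ∣ ((6 * j).choose (3 * j) * (3 * j).choose j) *
          ((6 * (n - j)).choose (3 * (n - j)) * (3 * (n - j)).choose (n - j)) := by
    intro j hj
    have hjn : j ≤ n := by
      have := Finset.mem_range.1 hj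
      omega
    have := single_four (j := j) (k := n - j) (by omega)
    rw [show j + (n - j) = n by omega] at this
    rw [hD]
    exact this
  obtain ⟨t, ht⟩ : ∃ t : ℕ → ℕ, ∀ j, t j = ((6 * j).choose (3 * j) * (3 * j).choose j) *
          ((6 * (n - j)).choose (3 * (n - j)) * (3 * (n - j)).choose (n - j)) :=
    ⟨_, fun _ => rfl⟩
  simp only [← ht] at hterm ⊢
  have hfac : ∀ j ∈ Finset.range (n + 1), t j = D * (t j / D) := by
    intro j hj
    exact (Nat.mul_div_cancel' (hterm j hj)).symm
  rw [Finset.sum_congr rfl hfac, ← Finset.mul_sum, mul_comm 2 D]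
  refine Nat.mul_dvd_mul_left D ?_
  rw [← ZMod.natCast_eq_zero_iff]
  push_cast
  refine Finset.sum_involution (fun j _ => n - j) ?_ ?_ ?_ ?_
  · intro j hj
    have hjn : j ≤ n := by
      have := Finset.mem_range.1 hj
      omega
    have hsym : t (n - j) = t j := by
      rw [ht, ht, show n - (n - j) = j by omega, mul_comm]
    rw [hsym]
    exact CharTwo.add_self_eq_zero _
  · intro j hj hne heq
    apply hne
    have hjn : j ≤ n := by
      have := Finset.mem_range.1 hj
      omega
    have hj1 : n = j + j := by omega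
    have h8 := single_eight (j := j) (by omega)
    rw [← hj1, hD2] at h8
    have h9 : 2 * D ∣ t j := by
      rw [ht, heq]
      exact h8
    obtain ⟨u, hu⟩ := h9
    rw [hu, show 2 * D * u = D * (2 * u) by ring, Nat.mul_div_cancel_left _ hD0]
    push_cast
    have : (2 : ZMod 2) = 0 := by decide
    rw [this, zero_mul]
  · intro j hj
    exact Finset.mem_range.2 (by omega)
  · intro j hj
    have := Finset.mem_range.1 hj
    omega

end Pool.Agent.Results.MP_cbedb1_nt.SelfConvolution
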